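import Pool.Agent.TH133.Defs

/-!
# Bloch-Beilinson filtrations from one Chow-Kunneth decomposition per variety: definitions
-/

open CategoryTheory AlgebraicGeometry

universe u v w

namespace Pool.Agent.Q28.MR

open Pool.Agent.H914 Pool.Agent.H914.VarClass Pool.Agent.H914.VarClass.Obj Pool.Agent.W492.BB
  Pool.Agent.W550.Corr Pool.Agent.TH133

variable {k : Type u} [Field k] {𝒱 : VarClass k}

/-- The Tate twist `h(X)(-c)` of the Chow motive of `X` is a direct summand of the Chow motive of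
`Z`: there are correspondences `f ∈ CH^(dim X + c)(X × Z)`, `g ∈ CH^(dim Z - c)(Z × X)` with
`g ∘ f = Δ_X`. -/
def Summand (C : TheoryData.{u, v, 0} 𝒱 ℚ) (c : ℕ) (X Z : 𝒱.Obj) : Prop :=
  ∃ (f : C.A (X.prod Z)) (g : C.A (Z.prod X)), C.Deg ((X.dim : ℤ) + c) f ∧
    C.Deg ((Z.dim : ℤ) - c) g ∧ C.comp f g = dg C X

/-- The Chow-Kunneth decomposition `π^t × π` of `Z × Z`, where `π` is a Chow-Kunneth decomposition of
`Z`: the `n`-th projector is the sum of the external products of the transpose of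
`π (2 dim Z - i)` and of `π (n - i)`. -/
noncomputable def squareCK (C : TheoryData.{u, v, 0} 𝒱 ℚ) {Z : 𝒱.Obj}
    (π : ℕ → C.A (Z.prod Z)) : ℕ → C.A ((Z.prod Z).prod (Z.prod Z)) :=
  fun n => ∑ i ∈ Finset.range (n + 1),
    C.pull (prodMap (fst Z Z) (fst Z Z)) (if i ≤ 2 * Z.dim then tp C (π (2 * Z.dim - i)) else 0) *
      C.pull (prodMap (snd Z Z) (snd Z Z)) (π (n - i))

/-- Murre's condition (B), second half, for the one Chow-Kunneth decomposition `π` of `X`:
`F^(i+1) CH^i(X) = 0`, that is, `π j` acts as zero on `CH^i(X)` for `j < i`. -/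
def SatisfiesB1 (C : TheoryData.{u, v, 0} 𝒱 ℚ) {X : 𝒱.Obj} (π : ℕ → C.A (X.prod X)) : Prop :=
  ∀ i : ℕ, ckFil C π i (i + 1) = ⊥

variable {C : TheoryData.{u, v, 0} 𝒱 ℚ} {K : Type w} [Field K] (H : WeilTheoryData.{u, v, w} C K)

/-- Murre's condition (D) for the one Chow-Kunneth decomposition `π` of `X`: every homologically
trivial class in `CH^i(X)` lies in `F^1 CH^i(X)` (the converse is clear). -/
def SatisfiesD {X : 𝒱.Obj} (π : ℕ → C.A (X.prod X)) : Prop :=
  ∀ (i : ℕ) (x : C.A X), C.Deg i x → H.cl x = 0 → x ∈ ckFil C π i 1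

/-- `Z` has a Chow-Kunneth decomposition `π` whose square `π^t × π` satisfies (D) on `Z × Z`. -/
def HasD (Z : 𝒱.Obj) : Prop := ∃ π, IsCK H Z π ∧ SatisfiesD H (squareCK C π)

/-- `Z` has a Chow-Kunneth decomposition `π` which satisfies (B1) and whose square `π^t × π`
satisfies (D) on `Z × Z`. -/
def HasDB (Z : 𝒱.Obj) : Prop :=
  ∃ π, IsCK H Z π ∧ SatisfiesD H (squareCK C π) ∧ SatisfiesB1 C π

/-- A consequence of the Lefschetz theorems and of the Lefschetz standard conjecture for `X`: the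
cohomology `H^m(X)` is a direct summand, by means of correspondences of degree zero, of the
cohomology of a variety `Y` of dimension at most `m` (a smooth linear section of `X`). -/
def LefschetzFactors : Prop :=
  ∀ (X : 𝒱.Obj) (m : ℕ), ∃ (Y : 𝒱.Obj) (a : C.A (X.prod Y)) (b : C.A (Y.prod X)), Y.dim ≤ m ∧
    C.Deg X.dim a ∧ C.Deg Y.dim b ∧
    ∀ α : H.A X, H.Deg m α → H.act (H.cl b) (H.act (H.cl a) α) = α

/-- A system of filtrations on all varieties with all the properties of a Bloch-Beilinson filtration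
except that `F^(j + 1) CH^j = 0` is replaced by `F^(N j) CH^j = 0`; moreover all correspondences
between all varieties respect it and the admissible ones raise it. -/
structure IsBBBound (N : ℕ → ℕ) (F : Filtration C) : Prop where
  zero : ∀ (X : 𝒱.Obj) (i : ℕ) (x : C.A X), F.Mem i 0 x ↔ C.Deg i x
  one : ∀ (X : 𝒱.Obj) (i : ℕ) (x : C.A X), F.Mem i 1 x ↔ C.Deg i x ∧ H.cl x = 0
  top : ∀ (X : 𝒱.Obj) (i : ℕ) (x : C.A X), F.Mem i (N i) x → x = 0
  multiplicative : IsMultiplicative F
  motivic : IsMotivic H F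
  strong : IsStable H F

end Pool.Agent.Q28.MR
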