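import Pool.Agent.Q28.MR.Conv

/-!
# Bloch-Beilinson filtrations from one Chow-Kunneth decomposition per variety: the theorem
-/

open CategoryTheory AlgebraicGeometry

universe u v w

namespace Pool.Agent.Q28.MR

open Pool.Agent.H914 Pool.Agent.H914.VarClass Pool.Agent.H914.VarClass.Obj Pool.Agent.W492.BB
  Pool.Agent.W550.Corr Pool.Agent.TH133 Pool.Agent.Q28.GM
open Pool.Agent.Q28.GL hiding LefschetzFactors

set_option linter.unusedSectionVars false

variable {k : Type u} [Field k] {𝒱 : VarClass k}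

variable {C : TheoryData.{u, v, 0} 𝒱 ℚ} {K : Type w} [Field K] {H : WeilTheoryData.{u, v, w} C K}
  [hC : IsChowProj C] [hH : IsWeilProj H] {X Y Z W : 𝒱.Obj}

include hC hH

lemma Summand.dominates {c : ℕ} (h : Summand C c X Z) : Dominates C c X Z := by
  obtain ⟨f, g, hf, hg, hfg⟩ := h
  refine ⟨f, g, hf, hg, fun x => ?_⟩
  rw [← C.act_comp, hfg, act_dg]

/-- Künneth projectors pass to direct summands. -/
lemma Summand.kunneth {c : ℕ} (h : Summand C c X Z) {π : ℕ → C.A (Z.prod Z)} (hπ : IsCK H Z π)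
    (m : ℕ) : ∃ p : C.A (X.prod X), C.Deg X.dim p ∧ ∀ (l : ℤ) (a : H.A X), H.Deg l a →
      H.act (H.cl p) a = if l = m then a else 0 := by
  obtain ⟨f, g, hf, hg, hfg⟩ := h
  have hf' : C.Deg ((X.dim : ℤ) + c - 0) f := by simpa using hf
  have hg' : C.Deg ((Z.dim : ℤ) + 0 - c) g := by simpa using hg
  have hπ' : C.Deg ((Z.dim : ℤ) + c - c) (π (m + 2 * c)) := by simpa using hπ.deg _
  refine ⟨C.comp (C.comp f (π (m + 2 * c))) g, ?_, fun l a ha => ?_⟩
  · have h1 := comp_deg (comp_deg hf' hπ') hg'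
    simpa using h1
  · have h1 : H.Deg (l + 2 * ((c : ℤ) - 0)) (H.act (H.cl f) a) := actH_deg hf' ha
    rw [GL.actH_comp, GL.actH_comp, hπ.actH_eq _ _ h1]
    by_cases hl : l = m
    · rw [if_pos (by rw [hl]; push_cast; ring), if_pos hl, ← GL.actH_comp, hfg, TH133.actH_dg]
    · rw [if_neg (by push_cast; omega), if_neg hl, GL.actH_zero]

/-- The bound of the glued filtration. -/
lemma gM_bound {c : ℕ} {N : ℕ → ℕ} (hc : ∀ X : 𝒱.Obj, ∃ Z, Dominates C c X Z ∧
    ∃ G : ℕ → ℕ → Submodule ℚ (C.A Z), IsOwn H Z G ∧ ∀ j, G j (N j) = ⊥)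
    (X : 𝒱.Obj) (j : ℕ) : gM H X j (N (j + c)) = ⊥ := by
  rw [eq_bot_iff]
  rintro z ⟨Z, f, g, h, hz⟩
  obtain ⟨Z', hd, G, hG, htop⟩ := hc Z
  obtain ⟨f', g', h'⟩ := dominates_iff.1 hd
  have h1 := act_cM h' hz
  have h2 := cM_le hG _ _ h1
  rw [htop (j + c), Submodule.mem_bot] at h2
  rw [Submodule.mem_bot, ← h.eq z, ← h'.eq (C.act f z), h2, C.act_map_zero, C.act_map_zero]

lemma gFil_bound {c : ℕ} {N : ℕ → ℕ} (hc : ∀ X : 𝒱.Obj, ∃ Z, Dominates C c X Z ∧
    ∃ G : ℕ → ℕ → Submodule ℚ (C.A Z), IsOwn H Z G ∧ ∀ j, G j (N j) = ⊥) :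
    IsBBBound H (fun j => N (j + c)) (gFil H (C := C)) where
  zero X i x := gM_zero
  one X i x := gM_one
  top X i x hx := by
    have h1 : x ∈ gM H X i (N (i + c)) := hx
    rw [gM_bound hc] at h1
    exact (Submodule.mem_bot _).1 h1
  multiplicative := gFil_mult
  motivic := gFil_motivic
  strong := gFil_stable

lemma IsBBBound.isBB {N : ℕ → ℕ} {F : Filtration C} (h : IsBBBound H N F)
    (hN : ∀ j, N j ≤ j + 1) : IsBB H F where
  bounded := ⟨h.zero, h.one, fun X i x hx => h.top X i x (by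
    have key : ∀ m : ℕ, F.F X i (N i + m) ≤ F.F X i (N i) := by
      intro m
      induction m with
      | zero => exact le_rfl
      | succ m ih => exact (F.anti X i _).trans ih
    have h1 := key (i + 1 - N i)
    rw [Nat.add_sub_cancel' (hN i)] at h1
    exact h1 hx)⟩
  multiplicative := h.multiplicative
  motivic := h.motivic

/-- Under the Lefschetz standard conjecture the bound improves by itself. -/
theorem IsBBBound.lefschetz (hL : LefschetzFactors H) (hK : KunnethConjecture H) {N : ℕ → ℕ}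
    {F : Filtration C} (h : IsBBBound H N F) : IsBB H F where
  bounded := by
    refine ⟨h.zero, h.one, ?_⟩
    intro X j x hx
    have anti : ∀ n m : ℕ, F.F X j (n + m) ≤ F.F X j n := by
      intro n m
      induction m with
      | zero => exact le_rfl
      | succ m ih => exact (F.anti X j _).trans ih
    have key : ∀ ν, j < ν → F.F X j ν ≤ F.F X j (ν + 1) := by
      intro ν hν z hz
      have hzj : C.Deg j z := (h.zero X j z).1 (by
        have h1 := anti 0 ν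
        rw [Nat.zero_add] at h1
        exact h1 hz)
      have hdg : C.Deg (X.dim + (j : ℤ) - j) (dg C X) := deg0 (H := H) (dg_mem C X) _
      by_cases hm : 2 * j < ν
      · have hk : Kills H (dg C X) (2 * j - ν) := by
          intro a ha
          have h0 : H.gr X (2 * (j : ℤ) - ν) = ⊥ := H.gr_neg X _ (by omega)
          have : a = 0 := by
            have : a ∈ H.gr X (2 * (j : ℤ) - ν) := ha
            rw [h0] at this
            exact (Submodule.mem_bot _).1 this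
          rw [this, GL.actH_zero]
        have := h.strong.shift X X j j ν (dg C X) hdg (Or.inr ⟨hK, hk⟩) z hz
        rwa [act_dg] at this
      · obtain ⟨m, hm'⟩ : ∃ m : ℕ, m = 2 * j - ν := ⟨_, rfl⟩
        obtain ⟨Y, a, b, hY, ha, hb, hab⟩ := hL X m
        have hmz : (m : ℤ) = 2 * (j : ℤ) - ν := by omega
        have ha' : C.Deg (X.dim + (j : ℤ) - j) a := by simpa using ha
        have hb' : C.Deg (Y.dim + (j : ℤ) - j) b := by simpa using hb
        have hk : Kills H (dg C X - C.comp a b) (2 * j - ν) := by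
          intro α hα
          rw [← hmz] at hα
          rw [map_sub, H.act_sub, GL.actH_comp, hab α hα, TH133.actH_dg, sub_self]
        have h1 := h.strong.shift X X j j ν (dg C X - C.comp a b)
          (Submodule.sub_mem _ hdg (comp_deg ha' hb')) (Or.inr ⟨hK, hk⟩) z hz
        have h2 : C.act a z = 0 := by
          have h3 : C.Deg j (C.act a z) := act_deg ha' hzj
          exact hC.gr_top Y j _ h3 (by omega)
        rw [C.act_sub, act_dg, C.act_comp, h2, C.act_map_zero, sub_zero] at h1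
        exact h1
    have all : ∀ e : ℕ, F.F X j (j + 1) ≤ F.F X j (j + 1 + e) := by
      intro e
      induction e with
      | zero => exact le_rfl
      | succ e ih => exact ih.trans (key (j + 1 + e) (by omega))
    have h5 := all (N j) hx
    rw [Nat.add_comm] at h5
    exact h.top X j x (anti (N j) (j + 1) h5)
  multiplicative := h.multiplicative
  motivic := h.motivic

theorem main :
    (∀ 𝓕 : 𝒱.Obj → Prop, (∀ X, ∃ Z, 𝓕 Z ∧ Summand C 0 X Z) →
      ((KunnethConjecture H ∧ ∃ F : Filtration C, IsBB H F) ↔ ∀ Z, 𝓕 Z → HasDB H Z)) ∧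
    (∀ (c : ℕ) (𝓕 : 𝒱.Obj → Prop), (∀ X, ∃ Z, 𝓕 Z ∧ Summand C c X Z) →
      (∀ Z, 𝓕 Z → HasDB H Z) → KunnethConjecture H ∧
        ∃ F : Filtration C, IsBBBound H (fun j => j + c + 1) F) ∧
    (∀ (c : ℕ) (𝓕 : 𝒱.Obj → Prop), (∀ X, ∃ Z, 𝓕 Z ∧ Summand C c X Z) →
      (∀ Z, 𝓕 Z → HasD H Z) → KunnethConjecture H ∧
        ∃ F : Filtration C, IsBBBound H (fun j => 2 * (j + c) + 1) F) ∧
    (LefschetzFactors H → ∀ (c : ℕ) (𝓕 : 𝒱.Obj → Prop), (∀ X, ∃ Z, 𝓕 Z ∧ Summand C c X Z) →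
      ((KunnethConjecture H ∧ ∃ F : Filtration C, IsBB H F) ↔ ∀ Z, 𝓕 Z → HasD H Z)) := by
  have hKun : ∀ (c : ℕ) (𝓕 : 𝒱.Obj → Prop), (∀ X, ∃ Z, 𝓕 Z ∧ Summand C c X Z) →
      (∀ Z, 𝓕 Z → HasD H Z) → KunnethConjecture H := by
    intro c 𝓕 hd h X m
    obtain ⟨Z, hZ, hs⟩ := hd X
    obtain ⟨π, hπ, -⟩ := h Z hZ
    exact hs.kunneth hπ m
  have weak : ∀ Z : 𝒱.Obj, HasDB H Z → HasD H Z := fun Z ⟨π, h1, h2, _⟩ => ⟨π, h1, h2⟩
  have h2 : ∀ (c : ℕ) (𝓕 : 𝒱.Obj → Prop), (∀ X, ∃ Z, 𝓕 Z ∧ Summand C c X Z) →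
      (∀ Z, 𝓕 Z → HasDB H Z) → KunnethConjecture H ∧
        ∃ F : Filtration C, IsBBBound H (fun j => j + c + 1) F := by
    intro c 𝓕 hd h
    refine ⟨hKun c 𝓕 hd fun Z hZ => weak Z (h Z hZ), gFil H, ?_⟩
    refine gFil_bound (N := fun j => j + 1) fun X => ?_
    obtain ⟨Z, hZ, hs⟩ := hd X
    obtain ⟨π, hπ, hD, hB⟩ := h Z hZ
    exact ⟨Z, hs.dominates (H := H), ckFil C π, isOwn_ckFil hπ hD, hB⟩
  have h3 : ∀ (c : ℕ) (𝓕 : 𝒱.Obj → Prop), (∀ X, ∃ Z, 𝓕 Z ∧ Summand C c X Z) →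
      (∀ Z, 𝓕 Z → HasD H Z) → KunnethConjecture H ∧
        ∃ F : Filtration C, IsBBBound H (fun j => 2 * (j + c) + 1) F := by
    intro c 𝓕 hd h
    refine ⟨hKun c 𝓕 hd h, gFil H, ?_⟩
    refine gFil_bound (N := fun j => 2 * j + 1) fun X => ?_
    obtain ⟨Z, hZ, hs⟩ := hd X
    obtain ⟨π, hπ, hD⟩ := h Z hZ
    exact ⟨Z, hs.dominates (H := H), ckFil C π, isOwn_ckFil hπ hD, fun j => ckFil_empty (H := H) π j⟩
  refine ⟨fun 𝓕 hd => ⟨fun ⟨hK, F, hF⟩ Z _ => hasDB_of hF hK Z, fun h => ?_⟩, h2, h3,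
    fun hL c 𝓕 hd => ⟨fun ⟨hK, F, hF⟩ Z _ => weak Z (hasDB_of hF hK Z), fun h => ?_⟩⟩
  · obtain ⟨hK, F, hF⟩ := h2 0 𝓕 hd h
    exact ⟨hK, F, hF.isBB fun j => le_rfl⟩
  · obtain ⟨hK, F, hF⟩ := h3 c 𝓕 hd h
    exact ⟨hK, F, hF.lefschetz hL hK⟩

end Pool.Agent.Q28.MR
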