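import Pool.Agent.Q28.MR.Defs
import Pool.Agent.Q28.GM.Main
import Pool.Agent.TH133.Murre

/-!
# The filtration of one variety attached to a Chow-Kunneth decomposition with (D) on the square
-/

open CategoryTheory AlgebraicGeometry

universe u v w

namespace Pool.Agent.Q28.MR

open Pool.Agent.H914 Pool.Agent.H914.VarClass Pool.Agent.H914.VarClass.Obj Pool.Agent.W492.BB
  Pool.Agent.W550.Corr Pool.Agent.TH133 Pool.Agent.Q28.GM
open Pool.Agent.Q28.GL hiding LefschetzFactors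

set_option linter.unusedSectionVars false

variable {k : Type u} [Field k] {𝒱 : VarClass k}

variable {C : TheoryData.{u, v, 0} 𝒱 ℚ} {K : Type w} [Field K] {H : WeilTheoryData.{u, v, w} C K}
  [hC : IsChowProj C] [hH : IsWeilProj H] {X Y Z W : 𝒱.Obj}

include hC hH

omit hC hH in
lemma squareCK_eq (π : ℕ → C.A (Z.prod Z)) : squareCK C π = prodCK C (dualCK C π) π := rfl

lemma square_isCK {π : ℕ → C.A (Z.prod Z)} (h : IsCK H Z π) :
    IsCK H (Z.prod Z) (squareCK C π) := h.dual.prod h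

/-- The sandwich of a correspondence between two projectors. -/
lemma sand_deg {π ρ : ℕ → C.A (Z.prod Z)} (h : IsCK H Z π) (h' : IsCK H Z ρ) {i j : ℤ}
    {Γ : C.A (Z.prod Z)} (hΓ : C.Deg (Z.dim + i - j) Γ) (a b : ℕ) :
    C.Deg (Z.dim + i - j) (C.comp (C.comp (π a) Γ) (ρ b)) := by
  have h1 : C.Deg (Z.dim + j - j) (π a) := by simpa using h.deg a
  have h2 : C.Deg (Z.dim + i - i) (ρ b) := by simpa using h'.deg b
  exact comp_deg (comp_deg h1 hΓ) h2

lemma cl_sand {π ρ : ℕ → C.A (Z.prod Z)} (h : IsCK H Z π) (h' : IsCK H Z ρ) {i j : ℤ}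
    {Γ : C.A (Z.prod Z)} (hΓ : C.Deg (Z.dim + i - j) Γ) {a b : ℕ}
    (hab : (a : ℤ) + 2 * (i - j) ≠ b ∨ Kills H Γ a) :
    H.cl (C.comp (C.comp (π a) Γ) (ρ b)) = 0 := by
  apply cl_eq_zero_of_kills
  intro l x hx
  rw [GL.actH_comp, GL.actH_comp, h.actH_eq a l hx]
  split_ifs with hl
  · subst hl
    rcases hab with hab | hk
    · have h1 := actH_deg hΓ hx
      rw [h'.actH_eq b _ h1, if_neg hab]
    · rw [hk x hx, GL.actH_zero]
  · rw [GL.actH_zero, GL.actH_zero]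

/-- (D) on `Z × Z`: homologically trivial correspondences lower the weights strictly. -/
lemma lower_of_cl {π : ℕ → C.A (Z.prod Z)} (h : IsCK H Z π) (hD : SatisfiesD H (squareCK C π))
    {i j : ℤ} {Γ : C.A (Z.prod Z)} (hΓ : C.Deg (Z.dim + i - j) Γ) (h0 : H.cl Γ = 0) {a b : ℕ}
    (hab : (a : ℤ) + 2 * (i - j) ≤ b) : C.comp (C.comp (π a) Γ) (π b) = 0 := by
  by_cases ha : a ≤ 2 * Z.dim
  · by_cases hneg : (Z.dim : ℤ) + i - j < 0
    · have h1 : Γ = 0 := by
        have h2 : Γ ∈ C.gr (Z.prod Z) ((Z.dim : ℤ) + i - j) := hΓ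
        rw [C.gr_neg _ _ hneg] at h2
        exact (Submodule.mem_bot _).1 h2
      rw [h1, comp_zero, zero_comp]
    · obtain ⟨n, hn⟩ := Int.eq_ofNat_of_zero_le (not_lt.1 hneg)
      apply comp_zero_of_prod (H := H) h h ha
      have h2 := hD n Γ (by rw [← hn]; exact hΓ) h0
      rw [(square_isCK h).mem_ckFil] at h2
      rw [← squareCK_eq]
      exact h2.2 _ (by omega)
  · rw [h.out a (by omega), zero_comp, zero_comp]

lemma sand_sand {π : ℕ → C.A (Z.prod Z)} (h : IsCK H Z π) (Γ : C.A (Z.prod Z)) (a b : ℕ) :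
    C.comp (C.comp (π a) (C.comp (C.comp (π a) Γ) (π b))) (π b) =
      C.comp (C.comp (π a) Γ) (π b) := by
  rw [← comp_assoc, ← comp_assoc, h.idem, comp_assoc, h.idem]

/-- (D) on `Z × Z`: correspondences do not raise the weights. -/
lemma lower {π : ℕ → C.A (Z.prod Z)} (h : IsCK H Z π) (hD : SatisfiesD H (squareCK C π))
    {i j : ℤ} {Γ : C.A (Z.prod Z)} (hΓ : C.Deg (Z.dim + i - j) Γ) {a b : ℕ}
    (hab : (a : ℤ) + 2 * (i - j) < b ∨ ((a : ℤ) + 2 * (i - j) = b ∧ Kills H Γ a)) :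
    C.comp (C.comp (π a) Γ) (π b) = 0 := by
  rw [← sand_sand h]
  apply lower_of_cl h hD (sand_deg h h hΓ a b)
  · apply cl_sand h h hΓ
    rcases hab with h1 | h1
    · exact Or.inl h1.ne
    · exact Or.inr h1.2
  · rcases hab with h1 | h1
    · exact h1.le
    · exact h1.1.le

/-- (D) on `Z × Z` implies (D) on `Z`. -/
lemma act_eq_zero {π : ℕ → C.A (Z.prod Z)} (h : IsCK H Z π) (hD : SatisfiesD H (squareCK C π))
    {j b : ℕ} {z : C.A Z} (hz : C.Deg j z) (h0 : H.cl z = 0) (hb : 2 * j ≤ b) :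
    C.act (π b) z = 0 := by
  obtain ⟨u0, hu0, v0, hv0, huv⟩ := exists_dual_pair (C := C) (H := H) Z (l := Z.dim) le_rfl
  set Γ : C.A (Z.prod Z) := C.ext v0 z with hΓdef
  have hΓ : C.Deg ((Z.dim : ℤ) + j - Z.dim) Γ := by
    have h1 := ext_mem (C := C) (H := H) hv0 (show z ∈ C.gr Z j from hz)
    have e : (Z.dim : ℤ) - Z.dim + j = Z.dim + j - Z.dim := by ring
    rwa [e] at h1
  have hcl : H.cl Γ = 0 := by
    rw [hΓdef, TheoryData.ext, map_mul, H.cl_pull, H.cl_pull, h0, map_zero, mul_zero]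
  have h1 := lower_of_cl h hD hΓ hcl (a := 2 * Z.dim) (b := b) (by push_cast; omega)
  have h2 : C.act (C.comp (C.comp (π (2 * Z.dim)) Γ) (π b)) u0 = 0 := by
    rw [h1, C.act_zero]
  rw [C.act_comp, C.act_comp] at h2
  have h3 : C.act Γ (C.act (π (2 * Z.dim)) u0) = z := by
    rw [hΓdef, act_ext (H := H)]
    have h4 : C.push (snd Z Z) (C.pull (fst Z Z) (v0 * C.act (π (2 * Z.dim)) u0)) = 1 := by
      rw [← huv]
      have hw : C.act (π (2 * Z.dim)) u0 ∈ C.gr Z Z.dim := act_mem0 C (h.deg _) hu0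
      apply deg_eq_of_cl (H := H)
      · have := C.mul_mem hv0 hw
        rwa [sub_add_cancel] at this
      · have := C.mul_mem hv0 hu0
        rwa [sub_add_cancel] at this
      · rw [map_mul, map_mul, cl_act H]
        congr 1
        have h5 := H.cl_mem hu0
        exact h.act_self (2 * Z.dim) _ (by exact_mod_cast h5)
    rw [h4, one_mul]
  rwa [h3] at h2

lemma ckFil_zero_iff {π : ℕ → C.A (Z.prod Z)} (h : IsCK H Z π)
    (hD : SatisfiesD H (squareCK C π)) (j : ℕ) (z : C.A Z) :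
    z ∈ ckFil C π j 0 ↔ C.Deg j z := by
  rw [h.mem_ckFil]
  refine ⟨fun h1 => h1.1, fun hz => ⟨hz, fun m hm => ?_⟩⟩
  have h1 : C.Deg j (C.act (π m) z) := act_mem0 C (h.deg m) hz
  have h2 : H.cl (C.act (π m) z) = 0 := by
    rw [cl_act]
    have h3 := H.cl_mem (C := C) (X := Z) hz
    exact h.act_ne m _ _ (by omega) h3
  have h3 := act_eq_zero h hD h1 h2 (b := m) (by omega)
  rwa [← C.act_comp, h.idem] at h3

lemma ckFil_one_iff {π : ℕ → C.A (Z.prod Z)} (h : IsCK H Z π)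
    (hD : SatisfiesD H (squareCK C π)) (j : ℕ) (z : C.A Z) :
    z ∈ ckFil C π j 1 ↔ C.Deg j z ∧ H.cl z = 0 := by
  rw [h.mem_ckFil]
  constructor
  · rintro ⟨h1, h2⟩
    refine ⟨h1, ?_⟩
    have h3 := H.cl_mem (C := C) (X := Z) h1
    have h4 := h.act_self (2 * j) (H.cl z) (by exact_mod_cast h3)
    rw [← h4, ← cl_act, h2 (2 * j) (by omega), map_zero]
  · rintro ⟨h1, h2⟩
    exact ⟨h1, fun m hm => act_eq_zero h hD h1 h2 (by omega)⟩

lemma eq_sum_of_mem {π : ℕ → C.A (Z.prod Z)} (h : IsCK H Z π) {j ν : ℕ} {z : C.A Z}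
    (hz : z ∈ ckFil C π j ν) : z = ∑ a ∈ Finset.range (2 * j + 1 - ν), C.act (π a) z := by
  rw [h.mem_ckFil] at hz
  have h1 : C.act (∑ a ∈ Finset.range (2 * Z.dim + 1 + (2 * j + 1 - ν)), π a) z = z := by
    rw [h.sum_of_le (by omega), act_dg]
  rw [act_sum] at h1
  conv_lhs => rw [← h1]
  symm
  apply Finset.sum_subset
  · intro a ha
    rw [Finset.mem_range] at *
    omega
  · intro a _ ha
    rw [Finset.mem_range] at ha
    exact hz.2 a (by omega)

lemma act_mem_ckFil {π : ℕ → C.A (Z.prod Z)} (h : IsCK H Z π) {i j ν μ : ℕ}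
    {Γ : C.A (Z.prod Z)} (hΓ : C.Deg (Z.dim + i - j) Γ)
    (hv : ∀ a b : ℕ, a + ν ≤ 2 * j → 2 * i + 1 ≤ b + μ → C.comp (C.comp (π a) Γ) (π b) = 0)
    {z : C.A Z} (hz : z ∈ ckFil C π j ν) : C.act Γ z ∈ ckFil C π i μ := by
  have hz' := hz
  rw [h.mem_ckFil] at hz'
  rw [h.mem_ckFil]
  refine ⟨act_deg hΓ hz'.1, fun b hb => ?_⟩
  rw [eq_sum_of_mem h hz, act_map_sum, act_map_sum]
  apply Finset.sum_eq_zero
  intro a ha
  rw [Finset.mem_range] at ha
  rw [← C.act_comp, ← C.act_comp, ← comp_assoc, hv a b (by omega) (by omega), C.act_zero]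

/-- The filtration attached to `π`. -/
lemma isOwn_ckFil {π : ℕ → C.A (Z.prod Z)} (h : IsCK H Z π)
    (hD : SatisfiesD H (squareCK C π)) : IsOwn H Z (ckFil C π) where
  anti j ν z hz := by
    rw [h.mem_ckFil] at *
    exact ⟨hz.1, fun m hm => hz.2 m (by omega)⟩
  zero := ckFil_zero_iff h hD
  one := ckFil_one_iff h hD
  stable j i ν Γ hΓ z hz := act_mem_ckFil h hΓ (fun a b ha hb =>
    lower h hD hΓ (Or.inl (by omega))) hz
  shift j i ν Γ hΓ hk z hz := act_mem_ckFil h hΓ (fun a b ha hb => by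
    apply lower h hD hΓ
    by_cases hab : (a : ℤ) + 2 * ((i : ℤ) - j) < b
    · exact Or.inl hab
    · refine Or.inr ⟨by omega, ?_⟩
      have e : (a : ℤ) = 2 * j - ν := by omega
      rw [e]
      rcases hk with hk | ⟨-, hk⟩
      · exact hk _
      · exact hk) hz

lemma ckFil_empty (π : ℕ → C.A (Z.prod Z)) (j : ℕ) : ckFil C π j (2 * j + 1) = ⊥ := by
  unfold ckFil
  rw [Nat.sub_self, Finset.sum_range_zero]
  rw [eq_bot_iff]
  rintro _ ⟨y, -, rfl⟩
  rw [TheoryData.actL_apply, C.act_zero]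
  exact Submodule.zero_mem _

end Pool.Agent.Q28.MR
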