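import Pool.Agent.Q28.MR.Own

/-!
# Chow-Kunneth decompositions from a Bloch-Beilinson filtration
-/

open CategoryTheory AlgebraicGeometry

universe u v w

namespace Pool.Agent.Q28.MR

open Pool.Agent.H914 Pool.Agent.H914.VarClass Pool.Agent.H914.VarClass.Obj Pool.Agent.W492.BB
  Pool.Agent.W550.Corr Pool.Agent.TH133 Pool.Agent.Q28.GM
open Pool.Agent.Q28.GL hiding LefschetzFactors

set_option linter.unusedSectionVars false

variable {k : Type u} [Field k] {𝒱 : VarClass k}

variable {C : TheoryData.{u, v, 0} 𝒱 ℚ} {K : Type w} [Field K] {H : WeilTheoryData.{u, v, w} C K}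
  [hC : IsChowProj C] [hH : IsWeilProj H] {X Y Z W : 𝒱.Obj}

include hC hH

/-- A self-correspondence of degree zero in the form used for the filtrations. -/
lemma deg0 {Γ : C.A (Z.prod Z)} (h : C.Deg Z.dim Γ) (j : ℤ) : C.Deg (Z.dim + j - j) Γ := by
  simpa using h

/-- The filtration attached to any Chow-Kunneth decomposition is the Bloch-Beilinson
filtration. -/
lemma ckFil_eq {F : Filtration C} (hz : ∀ (X : 𝒱.Obj) (i : ℕ) (x : C.A X),
    F.Mem i 0 x ↔ C.Deg i x) (ht : ∀ (X : 𝒱.Obj) (i : ℕ) (x : C.A X), F.Mem i (i + 1) x → x = 0)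
    (hs : IsStable H F) (hK : KunnethConjecture H) {π : ℕ → C.A (X.prod X)} (h : IsCK H X π)
    (i ν : ℕ) : ckFil C π i ν = F.F X i ν := by
  have anti : ∀ n m : ℕ, n ≤ m → F.F X i m ≤ F.F X i n := by
    intro n m hnm
    induction m, hnm using Nat.le_induction with
    | base => exact le_rfl
    | succ m _ ih => exact (F.anti X i m).trans ih
  apply le_antisymm
  · intro x hx
    rw [h.mem_ckFil] at hx
    have key : ∀ μ : ℕ, μ ≤ ν → x ∈ F.F X i μ := by
      intro μ
      induction μ with
      | zero => exact fun _ => (hz X i x).2 hx.1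
      | succ μ ih =>
        intro hμ
        have h1 := ih (by omega)
        by_cases hi : μ ≤ 2 * i
        · have h2 : C.Deg (X.dim + (i : ℤ) - i) (dg C X - π (2 * i - μ)) :=
            deg0 (H := H) (Submodule.sub_mem _ (dg_mem C X) (h.deg _)) _
          have h3 : Kills H (dg C X - π (2 * i - μ)) (2 * i - μ) := by
            intro a ha
            rw [map_sub, H.act_sub, TH133.actH_dg, h.act_self (2 * i - μ) a (by
              have e : (2 * (i : ℤ) - μ) = ((2 * i - μ : ℕ) : ℤ) := by omega
              rw [← e]; exact ha), sub_self]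
          have h4 := hs.shift X X i i μ _ h2 (Or.inr ⟨hK, h3⟩) x h1
          rwa [C.act_sub, act_dg, hx.2 (2 * i - μ) (by omega), sub_zero] at h4
        · have h2 : C.Deg (X.dim + (i : ℤ) - i) (dg C X) := deg0 (H := H) (dg_mem C X) _
          have h3 : Kills H (dg C X) (2 * i - μ) := by
            intro a ha
            have h5 : a ∈ H.gr X (2 * (i : ℤ) - μ) := ha
            rw [H.gr_neg X _ (by omega)] at h5
            rw [(Submodule.mem_bot _).1 h5, GL.actH_zero]
          have h4 := hs.shift X X i i μ _ h2 (Or.inr ⟨hK, h3⟩) x h1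
          rwa [act_dg] at h4
    exact key ν le_rfl
  · intro x hx
    have hx0 : C.Deg i x := (hz X i x).1 (anti 0 ν (Nat.zero_le _) hx)
    rw [h.mem_ckFil]
    refine ⟨hx0, fun m hm => ?_⟩
    have key : ∀ n : ℕ, C.act (π m) x ∈ F.F X i (ν + n) := by
      intro n
      induction n with
      | zero =>
        exact hs.stable X X i i ν _ (deg0 (H := H) (h.deg m) _) x hx
      | succ n ih =>
        have h3 : Kills H (π m) (2 * i - (ν + n : ℕ)) := by
          intro a ha
          exact h.act_ne m _ a (by omega) ha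
        have h4 := hs.shift X X i i (ν + n) _ (deg0 (H := H) (h.deg m) _) (Or.inr ⟨hK, h3⟩) _ ih
        rwa [← C.act_comp, h.idem] at h4
    exact ht X i _ (anti _ _ (by omega) (key (i + 1)))

lemma extR_zero_left (Z : 𝒱.Obj) (c : H.A (Z.prod X)) : H.extR (0 : H.A (X.prod Y)) Z c = 0 := by
  rw [TheoryData.extR, map_zero, zero_mul, map_zero]

lemma comp_shift {F : Filtration C} (hs : IsStable H F) {n : ℕ} {a y : C.A (X.prod X)}
    (ha : a ∈ C.gr (X.prod X) X.dim) (h0 : H.cl a = 0) (hy : y ∈ F.F (X.prod X) X.dim n) :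
    C.comp y a ∈ F.F (X.prod X) X.dim (n + 1) := by
  have ha' : a ∈ C.gr (X.prod X) (X.dim + 0) := by rw [add_zero]; exact ha
  obtain ⟨Γ, hΓ, h1, h2⟩ := Realised.extR (H := H) ha' X
  have h3 : C.Deg ((X.prod X).dim + (X.dim : ℤ) - X.dim) Γ := by
    have e : ((X.prod X).dim : ℤ) + (X.dim : ℤ) - X.dim = (X.prod X).dim + 0 := by ring
    rw [e]; exact hΓ
  have h4 : ∀ l, Kills H Γ l := by
    intro l b _
    rw [h2, h0, extR_zero_left (C := C)]
  have h5 := hs.shift _ _ X.dim X.dim n Γ h3 (Or.inl h4) y hy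
  rw [h1, ← comp_eq_extR] at h5
  exact h5

/-- Homologically trivial self-correspondences are nilpotent. -/
lemma nilp {F : Filtration C} (hz : ∀ (X : 𝒱.Obj) (i : ℕ) (x : C.A X),
    F.Mem i 0 x ↔ C.Deg i x) (ht : ∀ (X : 𝒱.Obj) (i : ℕ) (x : C.A X), F.Mem i (i + 1) x → x = 0)
    (hs : IsStable H F) {a : Cor C X} (ha : a ∈ cor0 C X) (h0 : H.cl (X := X.prod X) a = 0) :
    a ^ (X.dim + 1) = 0 := by
  have key : ∀ n : ℕ, (a ^ n : Cor C X) ∈ F.F (X.prod X) X.dim n := by
    intro n
    induction n with
    | zero =>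
      rw [pow_zero]
      exact (hz _ _ _).2 (dg_mem C X)
    | succ n ih =>
      rw [pow_succ']
      exact comp_shift hs ha h0 ih
  exact ht _ _ _ (key (X.dim + 1))

/-- The projection of the cohomology onto `H^m`, given by a Künneth projector. -/
lemma exists_ck {F : Filtration C} (hz : ∀ (X : 𝒱.Obj) (i : ℕ) (x : C.A X),
    F.Mem i 0 x ↔ C.Deg i x) (ht : ∀ (X : 𝒱.Obj) (i : ℕ) (x : C.A X), F.Mem i (i + 1) x → x = 0)
    (hs : IsStable H F) (hK : KunnethConjecture H) (X : 𝒱.Obj) : ∃ π, IsCK H X π := by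
  choose p hp hpa using hK X
  let P : ℕ → cor0 C X := fun m => ⟨p m, hp m⟩
  let f : cor0 C X →+* Module.End K (H.A X) :=
    (actH C X H).comp (cor0 C X).val.toRingHom
  have hf : ∀ a : cor0 C X, f a = actH C X H a := fun a => rfl
  have hfP : ∀ (m : ℕ) (l : ℤ) (a : H.A X), H.Deg l a → f (P m) a = if l = m then a else 0 :=
    fun m l a ha => hpa m l a ha
  have hnil : ∀ x ∈ RingHom.ker f, IsNilpotent x := by
    intro x hx
    rw [RingHom.mem_ker, hf] at hx
    have h0 : H.cl (X := X.prod X) (x : Cor C X) = 0 :=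
      hom_zero_of_act H (X := X) (Y := X) fun a => LinearMap.congr_fun hx a
    refine ⟨X.dim + 1, Subtype.ext ?_⟩
    rw [SubmonoidClass.coe_pow]
    exact nilp hz ht hs x.2 h0
  have he : CompleteOrthogonalIdempotents (fun i : Fin (2 * X.dim + 1) => f (P i)) := by
    rw [CompleteOrthogonalIdempotents.iff_ortho_complete]
    constructor
    · intro i j hij
      apply ext_gr H
      intro l a ha
      rw [LinearMap.zero_apply]
      change f (P i) (f (P j) a) = 0
      rw [hfP j l a ha]
      split_ifs with hl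
      · rw [hfP i l a ha, if_neg]
        intro h1
        rw [h1] at hl
        apply hij
        apply Fin.ext
        exact_mod_cast hl
      · exact map_zero _
    · apply ext_gr H
      intro l a ha
      rw [LinearMap.sum_apply]
      by_cases ha0 : a = 0
      · rw [ha0]
        simp
      have h1 := nonneg_of_mem H ha ha0
      have h2 : l ≤ 2 * X.dim := by
        by_contra h3
        rw [gr_top H (by omega)] at ha
        exact ha0 ((Submodule.mem_bot _).1 ha)
      obtain ⟨n, rfl⟩ := Int.eq_ofNat_of_zero_le h1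
      have hn : n < 2 * X.dim + 1 := by omega
      rw [Finset.sum_eq_single (⟨n, hn⟩ : Fin (2 * X.dim + 1))]
      · rw [hfP _ _ _ ha, if_pos rfl]
        rfl
      · intro b _ hb
        rw [hfP _ _ _ ha, if_neg]
        intro h4
        apply hb
        apply Fin.ext
        exact_mod_cast h4.symm
      · intro h5
        exact absurd (Finset.mem_univ _) h5
  obtain ⟨e', he', hfe⟩ := CompleteOrthogonalIdempotents.lift_of_isNilpotent_ker f hnil he
    (fun i => ⟨P i, rfl⟩)
  let Q : ℕ → Cor C X := fun m => if h : m < 2 * X.dim + 1 then (e' ⟨m, h⟩ : Cor C X) else 0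
  refine ⟨Q, isCK_of (P := Q) ?_ ?_ ?_ ?_ ?_⟩
  · intro i
    simp only [Q]
    split_ifs
    · exact (e' _).2
    · exact (cor0 C X).zero_mem
  · intro i hi
    simp only [Q]
    rw [dif_neg (by omega)]
  · intro i j
    simp only [Q]
    by_cases hi : i < 2 * X.dim + 1
    · by_cases hj : j < 2 * X.dim + 1
      · rw [dif_pos hi, dif_pos hj]
        have h1 := he'.toOrthogonalIdempotents.mul_eq ⟨i, hi⟩ ⟨j, hj⟩
        have h2 := congrArg (Subtype.val) h1
        rw [MulMemClass.coe_mul] at h2
        rw [h2]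
        by_cases hij : i = j
        · rw [if_pos hij, if_pos (Fin.ext hij)]
        · rw [if_neg hij, if_neg (fun h3 => hij (Fin.ext_iff.1 h3))]
          rfl
      · rw [dif_neg hj, mul_zero]
        split_ifs with h3
        · exact absurd (h3 ▸ hi) hj
        · rfl
    · rw [dif_neg hi, zero_mul]
      simp
  · rw [← Fin.sum_univ_eq_sum_range]
    have h1 := congrArg (Subtype.val) he'.complete
    rw [AddSubmonoidClass.coe_finsetSum] at h1
    have h2 : ∑ i : Fin (2 * X.dim + 1), Q i = ∑ i : Fin (2 * X.dim + 1), (e' i : Cor C X) := by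
      apply Finset.sum_congr rfl
      intro i _
      simp only [Q]
      rw [dif_pos i.2]
    rw [h2]
    exact h1
  · intro i m a ha
    simp only [Q]
    by_cases hi : i < 2 * X.dim + 1
    · rw [dif_pos hi]
      have h1 := congrFun hfe ⟨i, hi⟩
      have h2 := LinearMap.congr_fun h1 a
      change actH C X H (e' ⟨i, hi⟩ : Cor C X) a = f (P i) a at h2
      rw [h2, hfP _ _ _ ha]
    · rw [dif_neg hi, map_zero, LinearMap.zero_apply]
      split_ifs with h3
      · subst h3
        have h4 : a ∈ H.gr X i := ha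
        rw [gr_top H (by omega)] at h4
        exact ((Submodule.mem_bot _).1 h4).symm
      · rfl

/-- A Bloch-Beilinson filtration and the Künneth conjecture give Murre's conditions. -/
lemma hasDB_of {F : Filtration C} (hF : IsBB H F) (hK : KunnethConjecture H) (Z : 𝒱.Obj) :
    HasDB H Z := by
  have hs := isStable_of hF.bounded.zero hF.bounded.one hF.multiplicative hF.motivic
  obtain ⟨π, hπ⟩ := exists_ck hF.bounded.zero hF.bounded.top hs hK Z
  refine ⟨π, hπ, ?_, ?_⟩
  · intro i x hx h0
    rw [ckFil_eq hF.bounded.zero hF.bounded.top hs hK (square_isCK hπ)]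
    exact (hF.bounded.one _ _ _).2 ⟨hx, h0⟩
  · intro i
    rw [ckFil_eq hF.bounded.zero hF.bounded.top hs hK hπ, eq_bot_iff]
    exact fun x hx => (Submodule.mem_bot _).2 (hF.bounded.top _ _ _ hx)

end Pool.Agent.Q28.MR
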